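import Pool.Agent.X225.Cr.Lat

/-!
# The group of isometries of the lattice, and the commutant
-/

namespace Pool.Agent.X225.Cr

open Filter ComplexConjugate

/-! ### The point group -/

/-- the point group: the isometries of the lattice that commute with `√2` and `√-3`, or anticommute
with both -/
noncomputable def Gam : Subgroup (V ≃ₗᵢ[ℝ] V) where
  carrier := {γ | (∀ x, γ x ∈ lat ↔ x ∈ lat) ∧
    ((∀ x, sV (γ x) = γ (sV x) ∧ tV (γ x) = γ (tV x)) ∨
      (∀ x, sV (γ x) = -γ (sV x) ∧ tV (γ x) = -γ (tV x)))}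
  mul_mem' := by
    rintro γ δ ⟨h1, h2⟩ ⟨h3, h4⟩
    refine ⟨fun x => ?_, ?_⟩
    · change γ (δ x) ∈ lat ↔ _
      rw [h1, h3]
    · rcases h2 with h2 | h2 <;> rcases h4 with h4 | h4
      · left
        intro x
        change sV (γ (δ x)) = γ (δ _) ∧ tV (γ (δ x)) = γ (δ _)
        rw [(h2 _).1, (h2 _).2, (h4 _).1, (h4 _).2]
        exact ⟨rfl, rfl⟩
      · right
        intro x
        change sV (γ (δ x)) = -γ (δ _) ∧ tV (γ (δ x)) = -γ (δ _)
        rw [(h2 _).1, (h2 _).2, (h4 _).1, (h4 _).2, map_neg, map_neg]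
        exact ⟨rfl, rfl⟩
      · right
        intro x
        change sV (γ (δ x)) = -γ (δ _) ∧ tV (γ (δ x)) = -γ (δ _)
        rw [(h2 _).1, (h2 _).2, (h4 _).1, (h4 _).2]
        exact ⟨rfl, rfl⟩
      · left
        intro x
        change sV (γ (δ x)) = γ (δ _) ∧ tV (γ (δ x)) = γ (δ _)
        rw [(h2 _).1, (h2 _).2, (h4 _).1, (h4 _).2, map_neg, map_neg, neg_neg, neg_neg]
        exact ⟨rfl, rfl⟩
  one_mem' := ⟨fun x => Iff.rfl, Or.inl fun x => ⟨rfl, rfl⟩⟩
  inv_mem' := by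
    rintro γ ⟨h1, h2⟩
    refine ⟨fun x => ?_, ?_⟩
    · have := h1 (γ⁻¹ x)
      rw [show γ (γ⁻¹ x) = x from γ.apply_symm_apply x] at this
      exact this.symm
    · have hi : ∀ x, γ⁻¹ (γ x) = x := γ.symm_apply_apply
      have hi' : ∀ x, γ (γ⁻¹ x) = x := γ.apply_symm_apply
      rcases h2 with h2 | h2
      · left
        intro x
        constructor
        · apply γ.injective
          rw [← (h2 _).1, hi', hi']
        · apply γ.injective
          rw [← (h2 _).2, hi', hi']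
      · right
        intro x
        constructor
        · apply γ.injective
          rw [map_neg, hi', eq_neg_iff_add_eq_zero, ← eq_neg_iff_add_eq_zero, ← neg_eq_iff_eq_neg,
            ← (h2 _).1, hi']
        · apply γ.injective
          rw [map_neg, hi', eq_neg_iff_add_eq_zero, ← eq_neg_iff_add_eq_zero, ← neg_eq_iff_eq_neg,
            ← (h2 _).2, hi']

theorem opW_mem_Gam : opW ∈ Gam :=
  ⟨fun _ => opW_mem, Or.inl fun x => ⟨sV_opW x, tV_opW x⟩⟩

theorem opZ_mem_Gam : opZ ∈ Gam :=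
  ⟨fun _ => opZ_mem, Or.inl fun x => ⟨sV_opZ x, tV_opZ x⟩⟩

theorem opC_mem_Gam : opC ∈ Gam :=
  ⟨fun _ => opC_mem, Or.inl fun x => ⟨sV_opC x, tV_opC x⟩⟩

theorem opS_mem_Gam : opS ∈ Gam :=
  ⟨fun _ => opS_mem, Or.inr fun x => ⟨sV_opS x, tV_opS x⟩⟩

/-- the negation -/
noncomputable def opN : V ≃ₗᵢ[ℝ] V := LinearIsometryEquiv.neg ℝ

theorem opN_apply (x : V) : opN x = -x := rfl

theorem opN_mem_Gam : opN ∈ Gam := by
  refine ⟨fun x => ?_, Or.inl fun x => ⟨?_, ?_⟩⟩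
  · rw [opN_apply, neg_mem_iff]
  · rw [opN_apply, opN_apply, map_neg]
  · rw [opN_apply, opN_apply, map_neg]

/-! ### Bases -/

/-- the first basis vector -/
noncomputable def e0 : V := vec 1 0 0 0

theorem e0_mem : e0 ∈ lat := mem_lat_iff.2 ⟨isEis_one, isEis_zero, isEis_zero, isEis_zero⟩

theorem decomp (a b : Fin 4 → ℝ) :
    (vec (a 0 + b 0 * om) (a 1 + b 1 * om) (a 2 + b 2 * om) (a 3 + b 3 * om)) =
      (a 0 • e0 + b 0 • opW e0) + (a 1 • opZ e0 + b 1 • opW (opZ e0)) +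
      (a 2 • opZ (opZ e0) + b 2 • opW (opZ (opZ e0))) +
      (a 3 • opZ (opZ (opZ e0)) + b 3 • opW (opZ (opZ (opZ e0)))) := by
  apply V_ext <;> simp [opW_apply, opZ_apply, e0]

theorem exists_real (z : ℂ) : ∃ a b : ℝ, z = a + b * om := by
  refine ⟨z.re + z.im / √3, 2 * (z.im / √3), ?_⟩
  have h : √3 ≠ 0 := by have := sqrt3_gt; positivity
  apply Complex.ext
  · simp [om]
    ring
  · simp [om]
    field_simp

theorem eq_vec (x : V) : x = vec (x 0) (x 1) (x 2) (x 3) := by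
  apply V_ext <;> rfl

/-- a real linear isometry is determined by its values on the basis -/
theorem iso_ext {γ δ : V ≃ₗᵢ[ℝ] V}
    (h : ∀ v ∈ ([e0, opZ e0, opZ (opZ e0), opZ (opZ (opZ e0))] : List V),
      γ v = δ v ∧ γ (opW v) = δ (opW v)) : γ = δ := by
  ext1 x
  choose a b hab using fun i => exists_real (x i)
  have hx : x = vec (a 0 + b 0 * om) (a 1 + b 1 * om) (a 2 + b 2 * om) (a 3 + b 3 * om) := by
    rw [← hab, ← hab, ← hab, ← hab]
    exact eq_vec x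
  rw [hx, decomp]
  simp only [List.mem_cons, List.not_mem_nil, or_false, forall_eq_or_imp, forall_eq] at h
  obtain ⟨⟨h0, h0'⟩, ⟨h1, h1'⟩, ⟨h2, h2'⟩, h3, h3'⟩ := h
  simp only [map_add, map_smul, h0, h0', h1, h1', h2, h2', h3, h3']

instance finite_Gam : Finite Gam := by
  let B : Set V := {f : V | f ∈ lat ∧ ‖f‖ ≤ 1}
  have hB : Finite B := (finite_lat 1).to_subtype
  have hn0 : ‖e0‖ ≤ 1 := by
    refine le_of_sq_le_sq ?_ (by norm_num)
    rw [normSq_V]
    simp [e0]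
  have he : ∀ v : V, v ∈ lat → ‖v‖ ≤ 1 → ∀ γ : Gam, (γ : V ≃ₗᵢ[ℝ] V) v ∈ B := fun v hv hn γ =>
    ⟨(γ.2.1 v).2 hv, by rw [LinearIsometryEquiv.norm_map]; exact hn⟩
  let L : Fin 8 → V := ![e0, opZ e0, opZ (opZ e0), opZ (opZ (opZ e0)),
    opW e0, opW (opZ e0), opW (opZ (opZ e0)), opW (opZ (opZ (opZ e0)))]
  have hL : ∀ i, L i ∈ lat ∧ ‖L i‖ ≤ 1 := by
    intro i
    fin_cases i <;>
      simp [L, opZ_mem, opW_mem, e0_mem, hn0]
  let F : Gam → (Fin 8 → B) := fun γ i => ⟨(γ : V ≃ₗᵢ[ℝ] V) (L i), he _ (hL i).1 (hL i).2 γ⟩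
  refine Finite.of_injective F fun γ δ h => Subtype.ext (iso_ext ?_)
  have h1 : ∀ i, (γ : V ≃ₗᵢ[ℝ] V) (L i) = (δ : V ≃ₗᵢ[ℝ] V) (L i) := fun i =>
    congrArg Subtype.val (congrFun h i)
  simp only [List.mem_cons, List.not_mem_nil, or_false, forall_eq_or_imp, forall_eq]
  exact ⟨⟨h1 0, h1 4⟩, ⟨h1 1, h1 5⟩, ⟨h1 2, h1 6⟩, h1 3, h1 7⟩

/-! ### The action on the lattice -/

noncomputable instance : DistribMulAction Gam lat where
  smul γ x := ⟨(γ : V ≃ₗᵢ[ℝ] V) x, (γ.2.1 x).2 x.2⟩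
  one_smul x := rfl
  mul_smul γ δ x := rfl
  smul_zero γ := Subtype.ext (map_zero (γ : V ≃ₗᵢ[ℝ] V))
  smul_add γ x y := Subtype.ext (map_add (γ : V ≃ₗᵢ[ℝ] V) _ _)

theorem smul_coe (γ : Gam) (x : lat) : ((γ • x : lat) : V) = (γ : V ≃ₗᵢ[ℝ] V) x := rfl

/-- `√2` on the lattice -/
noncomputable def sL : lat →+ lat where
  toFun x := ⟨sV x, sV_mem x.2⟩
  map_zero' := Subtype.ext (map_zero sV)
  map_add' x y := Subtype.ext (map_add sV _ _)

/-- `√-3` on the lattice -/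
noncomputable def tL : lat →+ lat where
  toFun x := ⟨tV x, tV_mem x.2⟩
  map_zero' := Subtype.ext (map_zero tV)
  map_add' x y := Subtype.ext (map_add tV _ _)

theorem sL_coe (x : lat) : (sL x : V) = sV x := rfl
theorem tL_coe (x : lat) : (tL x : V) = tV x := rfl

theorem sL_sL (x : lat) : sL (sL x) = (2 : ℤ) • x := Subtype.ext (ss x)
theorem tL_tL (x : lat) : tL (tL x) = -((3 : ℤ) • x) := Subtype.ext (tt x)
theorem sL_tL (x : lat) : sL (tL x) = tL (sL x) := Subtype.ext (st x)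

theorem lat_tf (m : ℤ) (x : lat) (hm : m ≠ 0) (h : m • x = 0) : x = 0 := by
  have h1 : m • (x : V) = 0 := congrArg Subtype.val h
  rw [← Int.cast_smul_eq_zsmul ℝ] at h1
  exact Subtype.ext ((smul_eq_zero.1 h1).resolve_left (Int.cast_ne_zero.2 hm))

/-! ### The twist -/

theorem half_two (x : V) : sV (sV ((1 / 2 : ℝ) • x)) = x := by
  rw [ss, ← Int.cast_smul_eq_zsmul ℝ, smul_smul]
  norm_num

/-- two isometries that agree after `√2` are equal -/
theorem ext_sV {γ δ : V ≃ₗᵢ[ℝ] V} (h : ∀ x, γ (sV x) = δ (sV x)) : γ = δ := by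
  ext1 x
  have := h (sV ((1 / 2 : ℝ) • x))
  rwa [half_two] at this

theorem exists_tw (γ : Gam) : ∃ δ : Gam, (∀ x, sV ((γ : V ≃ₗᵢ[ℝ] V) x) =
    (δ : V ≃ₗᵢ[ℝ] V) (sV x)) ∧ (∀ x, tV ((γ : V ≃ₗᵢ[ℝ] V) x) = (δ : V ≃ₗᵢ[ℝ] V) (tV x)) := by
  rcases γ.2.2 with h | h
  · exact ⟨γ, fun x => (h x).1, fun x => (h x).2⟩
  · exact ⟨(⟨opN, opN_mem_Gam⟩ : Gam) * γ, fun x => (h x).1, fun x => (h x).2⟩

/-- the twist -/
noncomputable def tw (γ : Gam) : Gam := Classical.choose (exists_tw γ)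

theorem tw_s (γ : Gam) (x : V) : sV ((γ : V ≃ₗᵢ[ℝ] V) x) = (tw γ : V ≃ₗᵢ[ℝ] V) (sV x) :=
  (Classical.choose_spec (exists_tw γ)).1 x

theorem tw_t (γ : Gam) (x : V) : tV ((γ : V ≃ₗᵢ[ℝ] V) x) = (tw γ : V ≃ₗᵢ[ℝ] V) (tV x) :=
  (Classical.choose_spec (exists_tw γ)).2 x

theorem tw_unique {γ δ : Gam} (h : ∀ x, sV ((γ : V ≃ₗᵢ[ℝ] V) x) = (δ : V ≃ₗᵢ[ℝ] V) (sV x)) :
    tw γ = δ := by
  apply Subtype.ext
  apply ext_sV
  intro x
  rw [← tw_s, h]

theorem tw_tw (γ : Gam) : tw (tw γ) = γ := by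
  apply tw_unique
  intro x
  have h : ∀ y : V, sV ((tw γ : V ≃ₗᵢ[ℝ] V) (sV y)) = (γ : V ≃ₗᵢ[ℝ] V) (sV (sV y)) := by
    intro y
    rw [← tw_s, ss, ss, map_zsmul]
  have h1 := h (sV ((1 / 2 : ℝ) • x))
  rwa [half_two] at h1

/-- the twist as an automorphism of the point group -/
noncomputable def twE : Gam ≃* Gam where
  toFun := tw
  invFun := tw
  left_inv := tw_tw
  right_inv := tw_tw
  map_mul' γ δ := by
    apply tw_unique
    intro x
    change sV ((γ : V ≃ₗᵢ[ℝ] V) ((δ : V ≃ₗᵢ[ℝ] V) x)) =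
      (tw γ : V ≃ₗᵢ[ℝ] V) ((tw δ : V ≃ₗᵢ[ℝ] V) (sV x))
    rw [tw_s, tw_s]

/-- elements of the point group -/
noncomputable def gW : Gam := ⟨opW, opW_mem_Gam⟩
noncomputable def gZ : Gam := ⟨opZ, opZ_mem_Gam⟩
noncomputable def gC : Gam := ⟨opC, opC_mem_Gam⟩
noncomputable def gS : Gam := ⟨opS, opS_mem_Gam⟩
noncomputable def gN : Gam := ⟨opN, opN_mem_Gam⟩

theorem tw_W : tw gW = gW := tw_unique sV_opW
theorem tw_Z : tw gZ = gZ := tw_unique sV_opZ
theorem tw_C : tw gC = gC := tw_unique sV_opC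
theorem tw_S : tw gS = gN * gS := tw_unique sV_opS

/-! ### The commutant -/

theorem gN_smul (x : lat) : gN • x = -x := rfl

/-- `1` in the lattice -/
noncomputable def eL : lat := ⟨e0, e0_mem⟩

/-- the lattice is generated by `1` under `ω` and `ζ` -/
theorem lat_induction {P : lat → Prop} (h0 : P 0) (he : P eL) (hadd : ∀ x y, P x → P y → P (x + y))
    (hneg : ∀ x, P x → P (-x)) (hW : ∀ x, P x → P (gW • x)) (hZ : ∀ x, P x → P (gZ • x))
    (x : lat) : P x := by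
  have hz : ∀ (n : ℤ) x, P x → P (n • x) := by
    intro n x hx
    have hnat : ∀ n : ℕ, P (n • x) := by
      intro n
      induction n with
      | zero => rwa [zero_smul]
      | succ n ih => rw [succ_nsmul]; exact hadd _ _ ih hx
    obtain ⟨k, rfl | rfl⟩ := n.eq_nat_or_neg
    · rw [natCast_zsmul]; exact hnat k
    · rw [neg_smul, natCast_zsmul]; exact hneg _ (hnat k)
  choose a b hab using x.2
  have hx : (x : V) = vec (a 0 + b 0 * om) (a 1 + b 1 * om) (a 2 + b 2 * om)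
      (a 3 + b 3 * om) := by
    rw [← hab, ← hab, ← hab, ← hab]
    exact eq_vec x
  have h1 : x = (a 0 • eL + b 0 • gW • eL) + (a 1 • gZ • eL + b 1 • gW • gZ • eL) +
      (a 2 • gZ • gZ • eL + b 2 • gW • gZ • gZ • eL) +
      (a 3 • gZ • gZ • gZ • eL + b 3 • gW • gZ • gZ • gZ • eL) := by
    apply Subtype.ext
    have h2 := decomp (fun i => a i) (fun i => b i)
    simp only [Complex.ofReal_intCast, Int.cast_smul_eq_zsmul] at h2
    rw [hx, h2]
    rfl
  rw [h1]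
  refine hadd _ _ (hadd _ _ (hadd _ _ (hadd _ _ ?_ ?_) (hadd _ _ ?_ ?_)) (hadd _ _ ?_ ?_))
    (hadd _ _ ?_ ?_)
  · exact hz _ _ he
  · exact hz _ _ (hW _ he)
  · exact hz _ _ (hZ _ he)
  · exact hz _ _ (hW _ (hZ _ he))
  · exact hz _ _ (hZ _ (hZ _ he))
  · exact hz _ _ (hW _ (hZ _ (hZ _ he)))
  · exact hz _ _ (hZ _ (hZ _ (hZ _ he)))
  · exact hz _ _ (hW _ (hZ _ (hZ _ (hZ _ he))))

theorem sL_W (x : lat) : sL (gW • x) = gW • sL x := Subtype.ext (sV_opW x)
theorem sL_Z (x : lat) : sL (gZ • x) = gZ • sL x := Subtype.ext (sV_opZ x)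
theorem sL_C (x : lat) : sL (gC • x) = gC • sL x := Subtype.ext (sV_opC x)
theorem sL_S (x : lat) : sL (gS • x) = -(gS • sL x) := Subtype.ext (sV_opS x)
theorem tL_W (x : lat) : tL (gW • x) = gW • tL x := Subtype.ext (tV_opW x)
theorem tL_Z (x : lat) : tL (gZ • x) = gZ • tL x := Subtype.ext (tV_opZ x)

/-- `√2 = ζ - ζ³` -/
theorem sL_eq (x : lat) : sL x = gZ • x - gZ • gZ • gZ • x := by
  apply Subtype.ext
  change sV (x : V) = opZ x - opZ (opZ (opZ x))
  apply V_ext <;> simp [sV_apply, opZ_apply] <;> ring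

/-- the commutant of the point group -/
theorem commutant (χ : lat →+ lat) (hW : ∀ x, χ (gW • x) = gW • χ x)
    (hZ : ∀ x, χ (gZ • x) = gZ • χ x) (hC : ∀ x, χ (gC • x) = gC • χ x)
    (hS : ∀ x, χ (gS • x) = gS • χ x) :
    ∃ a c : ℤ, ∀ x, χ x = a • x + c • sL (tL x) := by
  have hC1 : gC • χ eL = χ eL := by
    rw [← hC]
    congr 1
    apply Subtype.ext
    change opC e0 = e0
    apply V_ext <;> simp [opC_apply, e0]
  have hS1 : gS • χ eL = χ eL := by
    rw [← hS]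
    congr 1
    apply Subtype.ext
    change opS e0 = e0
    apply V_ext <;> simp [opS_apply, e0]
  have hC2 : opC (χ eL : V) = (χ eL : V) := congrArg Subtype.val hC1
  have hS2 : opS (χ eL : V) = (χ eL : V) := congrArg Subtype.val hS1
  rw [opC_apply] at hC2
  rw [opS_apply] at hS2
  have h31 := congrArg (fun f : V => f 1) hC2
  have h22 := congrArg (fun f : V => f 2) hC2
  have h00 := congrArg (fun f : V => f 0) hS2
  have h13 := congrArg (fun f : V => f 1) hS2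
  simp only [vec_0, vec_1, vec_2] at h31 h22 h00 h13
  obtain ⟨a, a', ha⟩ := (χ eL).2 0
  obtain ⟨c, c', hc⟩ := (χ eL).2 1
  have h3 := sqrt3_gt
  have ha' : a' = 0 := by
    rw [ha] at h00
    have h := congrArg Complex.im h00
    rw [Complex.conj_im, im_eis] at h
    have : (a' : ℝ) * √3 = 0 := by linarith
    rcases mul_eq_zero.1 this with h | h
    · exact_mod_cast h
    · linarith
  have hc' : c' = 2 * c := by
    have h1 : conj ((χ eL : V) 1) = - (χ eL : V) 1 := by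
      have h4 : conj (conj ((χ eL : V) 3)) = conj ((χ eL : V) 1) := by rw [h13]
      rw [Complex.conj_conj] at h4
      rw [← h4, ← h31, neg_neg]
    rw [hc] at h1
    have h := congrArg Complex.re h1
    rw [Complex.conj_re, Complex.neg_re, re_eis] at h
    have : (c' : ℝ) = 2 * c := by linarith
    exact_mod_cast this
  have he : χ eL = a • eL + c • sL (tL eL) := by
    apply Subtype.ext
    change (χ eL : V) = a • e0 + c • sV (tV e0)
    have h0 : (χ eL : V) 0 = a := by rw [ha, ha']; simp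
    have h1 : (χ eL : V) 1 = c * th := by rw [hc, hc', th_eq]; push_cast; ring
    have h2 : (χ eL : V) 2 = 0 := by
      have : (2 : ℂ) * (χ eL : V) 2 = 0 := by linear_combination h22 - 2 * h22
      simpa using this
    have h3 : (χ eL : V) 3 = -(c * th) := by rw [← h1, ← h31, neg_neg]
    apply V_ext
    · rw [h0]; simp [sV_apply, tV_apply, e0]
    · rw [h1]; simp [sV_apply, tV_apply, e0]
    · rw [h2]; simp [sV_apply, tV_apply, e0]
    · rw [h3]; simp [sV_apply, tV_apply, e0]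
  refine ⟨a, c, fun x => ?_⟩
  have hγz : ∀ (γ : Gam) (n : ℤ) (x : lat), γ • (n • x) = n • γ • x := fun γ n x =>
    map_zsmul (DistribSMul.toAddMonoidHom lat γ) n x
  induction x using lat_induction with
  | h0 => simp
  | he => exact he
  | hadd x y hx hy =>
    rw [map_add, hx, hy, map_add, map_add, smul_add, smul_add]
    abel
  | hneg x hx =>
    rw [map_neg, hx, map_neg, map_neg, smul_neg, smul_neg]
    abel
  | hW x hx => rw [hW, hx, tL_W, sL_W, smul_add, hγz, hγz]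
  | hZ x hx => rw [hZ, hx, tL_Z, sL_Z, smul_add, hγz, hγz]

/-- values of the operators at `1` -/
theorem coeff_eq {a c a' c' : ℤ}
    (h : a • eL + c • sL (tL eL) = a' • eL + c' • sL (tL eL)) : a = a' ∧ c = c' := by
  have h1 : a • e0 + c • sV (tV e0) = a' • e0 + c' • sV (tV e0) := congrArg Subtype.val h
  have h0 := congrArg (fun f : V => f 0) h1
  have h2 := congrArg (fun f : V => f 1) h1
  have hth : th ≠ 0 := by
    intro h
    have := th_mul
    rw [h] at this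
    norm_num at this
  constructor
  · simp [sV_apply, tV_apply, e0] at h0
    exact_mod_cast h0
  · simp [sV_apply, tV_apply, e0, hth] at h2
    exact_mod_cast h2

/-- there is no automorphism of the lattice realising the twist -/
theorem no_twist (φ : lat ≃+ lat) (hW : ∀ x, φ (gW • x) = gW • φ x)
    (hZ : ∀ x, φ (gZ • x) = gZ • φ x) (hC : ∀ x, φ (gC • x) = gC • φ x)
    (hS : ∀ x, φ (gS • x) = -(gS • φ x)) : False := by
  have hs : ∀ x, φ (sL x) = sL (φ x) := by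
    intro x
    rw [sL_eq, map_sub, hZ, hZ, hZ, hZ, ← sL_eq]
  have hW' : ∀ x, φ.symm (gW • x) = gW • φ.symm x := fun x => by
    apply φ.injective; rw [hW, φ.apply_symm_apply, φ.apply_symm_apply]
  have hZ' : ∀ x, φ.symm (gZ • x) = gZ • φ.symm x := fun x => by
    apply φ.injective; rw [hZ, φ.apply_symm_apply, φ.apply_symm_apply]
  have hC' : ∀ x, φ.symm (gC • x) = gC • φ.symm x := fun x => by
    apply φ.injective; rw [hC, φ.apply_symm_apply, φ.apply_symm_apply]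
  have hS' : ∀ x, φ.symm (gS • x) = -(gS • φ.symm x) := fun x => by
    apply φ.injective; rw [map_neg, hS, φ.apply_symm_apply, φ.apply_symm_apply, neg_neg]
  obtain ⟨a, c, h1⟩ := commutant (φ.toAddMonoidHom.comp sL)
    (fun x => by change φ (sL _) = gW • φ (sL x); rw [sL_W, hW])
    (fun x => by change φ (sL _) = gZ • φ (sL x); rw [sL_Z, hZ])
    (fun x => by change φ (sL _) = gC • φ (sL x); rw [sL_C, hC])
    (fun x => by change φ (sL _) = gS • φ (sL x); rw [sL_S, map_neg, hS, neg_neg])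
  obtain ⟨a', c', h2⟩ := commutant (φ.toAddMonoidHom.comp φ.toAddMonoidHom)
    (fun x => by change φ (φ _) = gW • φ (φ x); rw [hW, hW])
    (fun x => by change φ (φ _) = gZ • φ (φ x); rw [hZ, hZ])
    (fun x => by change φ (φ _) = gC • φ (φ x); rw [hC, hC])
    (fun x => by change φ (φ _) = gS • φ (φ x); rw [hS, map_neg, hS, neg_neg])
  obtain ⟨a'', c'', h3⟩ := commutant (φ.symm.toAddMonoidHom.comp φ.symm.toAddMonoidHom)
    (fun x => by change φ.symm (φ.symm _) = gW • φ.symm (φ.symm x); rw [hW', hW'])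
    (fun x => by change φ.symm (φ.symm _) = gZ • φ.symm (φ.symm x); rw [hZ', hZ'])
    (fun x => by change φ.symm (φ.symm _) = gC • φ.symm (φ.symm x); rw [hC', hC'])
    (fun x => by
      change φ.symm (φ.symm _) = gS • φ.symm (φ.symm x); rw [hS', map_neg, hS', neg_neg])
  have h1' : ∀ x, φ (sL x) = a • x + c • sL (tL x) := h1
  have h2' : ∀ x, φ (φ x) = a' • x + c' • sL (tL x) := h2
  have h3' : ∀ x, φ.symm (φ.symm x) = a'' • x + c'' • sL (tL x) := h3
  -- products of operators in the commutant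
  have hprod : ∀ (p q r s : ℤ) (x : lat),
      p • (r • x + s • sL (tL x)) + q • sL (tL (r • x + s • sL (tL x))) =
        (p * r - 6 * (q * s)) • x + (p * s + q * r) • sL (tL x) := by
    intro p q r s x
    have h4 : sL (tL (sL (tL x))) = (-6 : ℤ) • x := by
      rw [← sL_tL, sL_sL, tL_tL, smul_neg, smul_smul]
      norm_num
    rw [map_add, map_add, map_zsmul, map_zsmul, map_zsmul, map_zsmul, h4]
    module
  have h5 : a'' * a' - 6 * (c'' * c') = 1 ∧ a'' * c' + c'' * a' = 0 := by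
    have h6 : φ.symm (φ.symm (φ (φ eL))) = eL := by
      rw [φ.symm_apply_apply, φ.symm_apply_apply]
    rw [h3', h2', hprod] at h6
    apply coeff_eq
    rw [h6]
    simp
  have h7 : (a' * a' + 6 * (c' * c')) * (a'' * a'' + 6 * (c'' * c'')) = 1 := by
    obtain ⟨h8, h9⟩ := h5
    have : (a' * a' + 6 * (c' * c')) * (a'' * a'' + 6 * (c'' * c'')) =
        (a'' * a' - 6 * (c'' * c')) ^ 2 + 6 * (a'' * c' + c'' * a') ^ 2 := by ring
    rw [this, h8, h9]
    norm_num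
  have h8 : a' * a' + 6 * (c' * c') = 1 := by
    rcases Int.mul_eq_one_iff_eq_one_or_neg_one.1 h7 with h | h
    · exact h.1
    · nlinarith [h.1, mul_self_nonneg a', mul_self_nonneg c']
  have hc' : c' = 0 := by
    by_contra hne
    have : 1 ≤ c' * c' := by
      rcases lt_or_gt_of_ne hne with h | h <;> nlinarith
    nlinarith [mul_self_nonneg a']
  subst hc'
  have ha' : a' = 1 ∨ a' = -1 := by
    have h9 : a' * a' = 1 := by linarith
    rcases Int.mul_eq_one_iff_eq_one_or_neg_one.1 h9 with h | h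
    · exact Or.inl h.1
    · exact Or.inr h.1
  -- the square of `φ s`
  have h9 : a * a - 6 * (c * c) = 2 * a' ∧ a * c + c * a = 0 := by
    have h10 : φ (sL (φ (sL eL))) = (2 * a') • eL := by
      rw [hs, hs, hs, sL_sL, h2']
      simp [smul_smul]
    rw [h1', h1', hprod] at h10
    apply coeff_eq
    rw [h10]
    simp
  obtain ⟨h10, h11⟩ := h9
  have h12 : a = 0 ∨ c = 0 := by
    have : a * c = 0 := by linarith
    exact mul_eq_zero.1 this
  rcases h12 with h | h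
  · subst h
    rcases ha' with rfl | rfl
    · nlinarith [mul_self_nonneg c]
    · have h13 : 3 * (c * c) = 1 := by linarith
      omega
  · subst h
    rcases ha' with rfl | rfl
    · have h13 : a * a = 2 := by linarith
      have h14 : a < 2 := by nlinarith
      have h15 : -2 < a := by nlinarith
      interval_cases a <;> omega
    · nlinarith [mul_self_nonneg a]

/-! ### Automorphisms of the semidirect product -/

section aut

variable {T Γ : Type} [AddCommGroup T] [Group Γ] [DistribMulAction Γ T] [Finite Γ]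

theorem pow_t (x : T) (n : ℕ) : ((⟨x, 1⟩ : Aff T Γ) ^ n) = ⟨n • x, 1⟩ := by
  induction n with
  | zero => simp only [pow_zero, zero_smul]; rfl
  | succ n ih =>
    rw [pow_succ, ih]
    ext
    · simp [succ_nsmul]
    · simp

/-- the normal subgroup `T` -/
theorem mem_T_iff (htf : ∀ (m : ℤ) (x : T), m ≠ 0 → m • x = 0 → x = 0)
    (hf : ∀ γ : Γ, (∀ x : T, γ • x = x) → γ = 1) (x : Aff T Γ) :
    x.g = 1 ↔ ∀ y : Aff T Γ, x * y ^ Nat.card Γ = y ^ Nat.card Γ * x := by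
  constructor
  · intro hx y
    have h1 : ∀ n, (y ^ n).g = y.g ^ n := by
      intro n
      induction n with
      | zero => rw [pow_zero, pow_zero]; rfl
      | succ n ih => rw [pow_succ, pow_succ, mul_g, ih]
    have h2 : (y ^ Nat.card Γ).g = 1 := by rw [h1, pow_card_eq_one']
    ext
    · rw [mul_t, mul_t, hx, h2, one_smul, one_smul, add_comm]
    · rw [mul_g, mul_g, hx, h2]
  · intro h
    apply hf
    intro t
    have h1 := congrArg Aff.t (h ⟨t, 1⟩)
    rw [pow_t, mul_t, mul_t, one_smul, add_comm] at h1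
    have h2 : x.g • (Nat.card Γ • t) = Nat.card Γ • t := add_right_cancel h1
    have h3 : Nat.card Γ • (x.g • t) = Nat.card Γ • t := by
      rw [← h2]
      exact (map_nsmul (DistribSMul.toAddMonoidHom T x.g) (Nat.card Γ) t).symm
    have h4 : (Nat.card Γ : ℤ) ≠ 0 := by exact_mod_cast Nat.card_pos.ne'
    refine smul_cancel htf h4 ?_
    rw [natCast_zsmul, natCast_zsmul, h3]

/-- an automorphism of the semidirect product restricts to an automorphism of `T` -/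
theorem aut_restrict (htf : ∀ (m : ℤ) (x : T), m ≠ 0 → m • x = 0 → x = 0)
    (hf : ∀ γ : Γ, (∀ x : T, γ • x = x) → γ = 1) (σ : Aff T Γ ≃* Aff T Γ) :
    ∃ φ : T ≃+ T, ∀ γ δ : Γ, σ ⟨0, γ⟩ = ⟨0, δ⟩ → ∀ x, φ (γ • x) = δ • φ x := by
  have hσ : ∀ (σ : Aff T Γ ≃* Aff T Γ) x, x.g = 1 → (σ x).g = 1 := by
    intro σ x hx
    rw [mem_T_iff htf hf] at hx ⊢
    intro y
    have h1 := congrArg σ (hx (σ.symm y))
    simpa using h1
  have hg : ∀ (σ : Aff T Γ ≃* Aff T Γ) (x : T), σ ⟨x, 1⟩ = ⟨(σ ⟨x, 1⟩).t, 1⟩ := by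
    intro σ x
    ext
    · rfl
    · exact hσ σ _ rfl
  have hadd : ∀ x y : T, (⟨x + y, 1⟩ : Aff T Γ) = ⟨x, 1⟩ * ⟨y, 1⟩ := by
    intro x y
    ext <;> simp
  refine ⟨⟨⟨fun x => (σ ⟨x, 1⟩).t, fun x => (σ.symm ⟨x, 1⟩).t, fun x => ?_, fun x => ?_⟩,
    fun x y => ?_⟩, fun γ δ h x => ?_⟩
  · change (σ.symm ⟨(σ ⟨x, 1⟩).t, 1⟩).t = x
    rw [← hg, σ.symm_apply_apply]
  · change (σ ⟨(σ.symm ⟨x, 1⟩).t, 1⟩).t = x
    rw [← hg σ.symm, σ.apply_symm_apply]
  · change (σ ⟨x + y, 1⟩).t = (σ ⟨x, 1⟩).t + (σ ⟨y, 1⟩).t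
    rw [hadd, map_mul, hg σ x, hg σ y]
    simp
  · change (σ ⟨γ • x, 1⟩).t = δ • (σ ⟨x, 1⟩).t
    have h1 : (⟨γ • x, 1⟩ : Aff T Γ) = ⟨0, γ⟩ * ⟨x, 1⟩ * (⟨0, γ⟩)⁻¹ := by
      ext <;> simp
    rw [h1, map_mul, map_mul, map_inv, h, hg σ x]
    simp

end aut

/-- the point group acts faithfully on the lattice -/
theorem faithful (γ : Gam) (h : ∀ x : lat, γ • x = x) : γ = 1 := by
  apply Subtype.ext
  apply iso_ext
  have h1 : ∀ v ∈ lat, (γ : V ≃ₗᵢ[ℝ] V) v = (1 : V ≃ₗᵢ[ℝ] V) v := fun v hv =>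
    congrArg Subtype.val (h ⟨v, hv⟩)
  simp only [List.mem_cons, List.not_mem_nil, or_false, forall_eq_or_imp, forall_eq]
  refine ⟨⟨h1 _ e0_mem, h1 _ ?_⟩, ⟨h1 _ ?_, h1 _ ?_⟩, ⟨h1 _ ?_, h1 _ ?_⟩, h1 _ ?_, h1 _ ?_⟩ <;>
    simp [opW_mem, opZ_mem, e0_mem]

/-- **the abstract group is not homogeneous** -/
theorem not_homogeneous : ∃ u v : Fin 4 → Aff lat Gam,
    (∀ φ : Lgrp.Formula (Fin 4), φ.Realize u ↔ φ.Realize v) ∧
      ¬ ∃ σ : Aff lat Gam ≃* Aff lat Gam, ∀ i, σ (u i) = v i := by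
  refine ⟨fun i => ⟨0, (![gW, gZ, gC, gS] : Fin 4 → Gam) i⟩,
    fun i => ⟨0, (![gW, gZ, gC, gN * gS] : Fin 4 → Gam) i⟩, ?_, ?_⟩
  · intro φ
    refine same_type lat_tf sL tL sL_sL tL_tL sL_tL twE (fun γ x => Subtype.ext (tw_s γ x))
      (fun γ x => Subtype.ext (tw_t γ x)) _ _ (fun i => ⟨rfl, rfl, ?_⟩) φ
    fin_cases i
    · exact tw_W.symm
    · exact tw_Z.symm
    · exact tw_C.symm
    · exact tw_S.symm
  · rintro ⟨σ, hσ⟩
    obtain ⟨φ, hφ⟩ := aut_restrict lat_tf faithful σ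
    refine no_twist φ (hφ gW gW (hσ 0)) (hφ gZ gZ (hσ 1)) (hφ gC gC (hσ 2)) fun x => ?_
    have h := hφ gS (gN * gS) (hσ 3) x
    rw [h, mul_smul, gN_smul]

end Pool.Agent.X225.Cr
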