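import Pool.Agent.X225.Cr.Twist

/-!
# The ultrapower: numbers, and types in the semidirect product
-/

namespace Pool.Agent.X225.Cr

open Filter FirstOrder FirstOrder.Language

/-- the odd part of the factorial -/
def yy (n : ℕ) : ℤ := ((n.factorial / 2 ^ (n.factorial).factorization 2 : ℕ) : ℤ)

theorem coprime_yy (n : ℕ) : IsCoprime (2 + 3 * yy n ^ 2) (n.factorial : ℤ) := by
  have hpos : n.factorial ≠ 0 := Nat.factorial_ne_zero n
  rw [Int.isCoprime_iff_gcd_eq_one]
  by_contra hne
  obtain ⟨q, hq, hqd⟩ := Nat.exists_prime_and_dvd hne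
  have h1 : (q : ℤ) ∣ 2 + 3 * yy n ^ 2 :=
    (Int.natCast_dvd_natCast.2 hqd).trans (Int.gcd_dvd_left ..)
  have h2 : (q : ℤ) ∣ (n.factorial : ℤ) :=
    (Int.natCast_dvd_natCast.2 hqd).trans (Int.gcd_dvd_right ..)
  have h2' : q ∣ n.factorial := Int.natCast_dvd_natCast.1 h2
  have hodd : ¬ 2 ∣ n.factorial / 2 ^ (n.factorial).factorization 2 :=
    Nat.not_dvd_ordCompl Nat.prime_two hpos
  have hqp : Prime (q : ℤ) := Nat.prime_iff_prime_int.1 hq
  by_cases hq2 : q = 2
  · subst hq2
    have h3 : (2 : ℤ) ∣ 3 * yy n ^ 2 := by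
      have := h1
      push_cast at this
      exact (dvd_add_right (dvd_refl 2)).1 this
    have h4 : (2 : ℤ) ∣ yy n := by
      rcases Int.prime_two.dvd_or_dvd h3 with h | h
      · norm_num at h
      · exact Int.prime_two.dvd_of_dvd_pow h
    apply hodd
    exact Int.natCast_dvd_natCast.1 h4
  · have h3 : q ∣ n.factorial / 2 ^ (n.factorial).factorization 2 := by
      have h4 : q ∣ 2 ^ (n.factorial).factorization 2 *
          (n.factorial / 2 ^ (n.factorial).factorization 2) := by
        rw [Nat.ordProj_mul_ordCompl_eq_self]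
        exact h2'
      rcases (Nat.Prime.dvd_mul hq).1 h4 with h | h
      · exact absurd ((Nat.prime_dvd_prime_iff_eq hq Nat.prime_two).1 (hq.dvd_of_dvd_pow h)) hq2
      · exact h
    have h4 : (q : ℤ) ∣ yy n := Int.natCast_dvd_natCast.2 h3
    have h5 : (q : ℤ) ∣ 2 := by
      have h6 : (q : ℤ) ∣ 3 * yy n ^ 2 := (Dvd.dvd.pow h4 two_ne_zero).mul_left 3
      exact (dvd_add_left h6).1 h1
    have h6 : q ∣ 2 := by exact_mod_cast h5
    exact hq2 ((Nat.prime_dvd_prime_iff_eq hq Nat.prime_two).1 h6)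

/-- nonstandard numbers -/
theorem exists_numbers (U : Filter ℕ) (hU : U ≤ atTop) : ∃ Y a b N : U.Germ ℤ,
    a * (2 + 3 * Y ^ 2) + b * N = 1 ∧ ∀ m : ℤ, m ≠ 0 → ∃ N' : U.Germ ℤ, N = m * N' := by
  choose a b hab using coprime_yy
  refine ⟨(yy : U.Germ ℤ), (a : U.Germ ℤ), (b : U.Germ ℤ),
    ((fun n => (n.factorial : ℤ) : ℕ → ℤ) : U.Germ ℤ), ?_, ?_⟩
  · have h : (fun n => a n * (2 + 3 * yy n ^ 2) + b n * (n.factorial : ℤ)) = fun _ => (1 : ℤ) :=
      funext hab
    have h2 := congrArg (fun f : ℕ → ℤ => (f : U.Germ ℤ)) h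
    exact h2
  · intro m hm
    refine ⟨((fun n => (n.factorial : ℤ) / m : ℕ → ℤ) : U.Germ ℤ), ?_⟩
    refine Germ.coe_eq.2 ?_
    have h1 : ∀ᶠ n : ℕ in U, m.natAbs ≤ n := hU (eventually_ge_atTop _)
    filter_upwards [h1] with n hn
    have h2 : m ∣ (n.factorial : ℤ) := by
      rw [← Int.natAbs_dvd]
      exact Int.natCast_dvd_natCast.2 (Nat.dvd_factorial (Int.natAbs_pos.2 hm) hn)
    exact (Int.mul_ediv_cancel' h2).symm

/-! ### The semidirect product and its types -/

/-- the operation symbols of the language of groups -/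
inductive GrpFun : ℕ → Type
  | mul : GrpFun 2
  | inv : GrpFun 1
  | one : GrpFun 0

/-- the language of groups -/
def Lgrp : FirstOrder.Language.{0, 0} := ⟨GrpFun, fun _ => Empty⟩

/-- a group as a structure of the language of groups -/
instance grpStructure (G : Type) [Group G] : Lgrp.Structure G where
  funMap := fun {_} f x => match f, x with
    | GrpFun.mul, x => x 0 * x 1
    | GrpFun.inv, x => (x 0)⁻¹
    | GrpFun.one, _ => 1
  RelMap := fun {_} r _ => nomatch r

/-- isomorphisms of groups are isomorphisms of structures -/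
def grpEquiv {G H : Type} [Group G] [Group H] (e : G ≃* H) : G ≃[Lgrp] H where
  toEquiv := e.toEquiv
  map_fun' := by
    intro n f x
    change GrpFun n at f
    cases f
    · exact e.map_mul (x 0) (x 1)
    · exact e.map_inv (x 0)
    · exact e.map_one
  map_rel' := fun {_} r _ => nomatch r

/-- the semidirect product of `T` and `Γ` -/
@[ext] structure Aff (T Γ : Type) where
  t : T
  g : Γ

section Aff

variable {T Γ : Type} [AddCommGroup T] [Group Γ] [DistribMulAction Γ T]

instance : Mul (Aff T Γ) := ⟨fun x y => ⟨x.t + x.g • y.t, x.g * y.g⟩⟩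
instance : One (Aff T Γ) := ⟨⟨0, 1⟩⟩
instance : Inv (Aff T Γ) := ⟨fun x => ⟨-(x.g⁻¹ • x.t), x.g⁻¹⟩⟩

@[simp] theorem mul_t (x y : Aff T Γ) : (x * y).t = x.t + x.g • y.t := rfl
@[simp] theorem mul_g (x y : Aff T Γ) : (x * y).g = x.g * y.g := rfl
@[simp] theorem one_t : (1 : Aff T Γ).t = 0 := rfl
@[simp] theorem one_g : (1 : Aff T Γ).g = 1 := rfl
@[simp] theorem inv_t (x : Aff T Γ) : (x⁻¹).t = -(x.g⁻¹ • x.t) := rfl
@[simp] theorem inv_g (x : Aff T Γ) : (x⁻¹).g = x.g⁻¹ := rfl

instance : Group (Aff T Γ) where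
  mul_assoc x y z := by
    ext
    · simp [smul_add, smul_smul, add_assoc]
    · simp [mul_assoc]
  one_mul x := by ext <;> simp
  mul_one x := by ext <;> simp
  inv_mul_cancel x := by ext <;> simp

/-- the isomorphism given by a pair of compatible maps -/
def affEquiv (Φ : T ≃+ T) (τ : Γ ≃* Γ) (h : ∀ γ x, Φ (γ • x) = τ γ • Φ x) :
    Aff T Γ ≃* Aff T Γ where
  toFun x := ⟨Φ x.t, τ x.g⟩
  invFun x := ⟨Φ.symm x.t, τ.symm x.g⟩
  left_inv x := by ext <;> simp
  right_inv x := by ext <;> simp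
  map_mul' x y := by ext <;> simp [h]

end Aff

section ultra

variable {T Γ : Type} [AddCommGroup T] [Group Γ] [DistribMulAction Γ T] (U : Ultrafilter ℕ)

/-- the ultrapower of the semidirect product -/
abbrev UP (T Γ : Type) (U : Ultrafilter ℕ) : Type := (U : Filter ℕ).Product fun _ => Aff T Γ

/-- the components of an element of the ultrapower -/
def comps : UP T Γ U → Aff ((U : Filter ℕ).Germ T) ((U : Filter ℕ).Germ Γ) :=
  Quotient.lift (fun f : ℕ → Aff T Γ =>
    (⟨((fun n => (f n).t : ℕ → T) : (U : Filter ℕ).Germ T),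
      ((fun n => (f n).g : ℕ → Γ) : (U : Filter ℕ).Germ Γ)⟩ :
      Aff ((U : Filter ℕ).Germ T) ((U : Filter ℕ).Germ Γ))) (by
    intro f g hfg
    have h : ∀ᶠ n in (U : Filter ℕ), f n = g n := hfg
    ext
    · exact Germ.coe_eq.2 (h.mono fun n hn => congrArg Aff.t hn)
    · exact Germ.coe_eq.2 (h.mono fun n hn => congrArg Aff.g hn))

theorem comps_mk (f : ℕ → Aff T Γ) : comps U (f : UP T Γ U) =
    ⟨((fun n => (f n).t : ℕ → T) : (U : Filter ℕ).Germ T),
      ((fun n => (f n).g : ℕ → Γ) : (U : Filter ℕ).Germ Γ)⟩ := rfl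

theorem comps_bijective : Function.Bijective (comps (T := T) (Γ := Γ) U) := by
  constructor
  · intro a b h
    obtain ⟨f, rfl⟩ := Quotient.exists_rep a
    obtain ⟨g, rfl⟩ := Quotient.exists_rep b
    have h1 : ∀ᶠ n in (U : Filter ℕ), (f n).t = (g n).t := Germ.coe_eq.1 (congrArg Aff.t h)
    have h2 : ∀ᶠ n in (U : Filter ℕ), (f n).g = (g n).g := Germ.coe_eq.1 (congrArg Aff.g h)
    refine Quotient.sound ?_
    have h3 : ∀ᶠ n in (U : Filter ℕ), f n = g n := by
      filter_upwards [h1, h2] with n h1 h2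
      exact Aff.ext h1 h2
    exact h3
  · rintro ⟨x, γ⟩
    induction x using Germ.inductionOn with | _ x => ?_
    induction γ using Germ.inductionOn with | _ γ => ?_
    exact ⟨((fun n => ⟨x n, γ n⟩ : ℕ → Aff T Γ) : UP T Γ U), rfl⟩

/-- the ultrapower of the semidirect product is the semidirect product of the ultrapowers -/
noncomputable def compsEquiv :
    UP T Γ U ≃[Lgrp] Aff ((U : Filter ℕ).Germ T) ((U : Filter ℕ).Germ Γ) where
  toEquiv := Equiv.ofBijective _ (comps_bijective U)
  map_fun' := by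
    intro n f x
    choose r hr using fun i => Quotient.exists_rep (x i)
    have hx : x = fun i => ((r i : ℕ → Aff T Γ) : UP T Γ U) := (funext hr).symm
    subst hx
    have h := Ultraproduct.funMap_cast (L := Lgrp) (u := U) f r
    refine (congrArg (comps U) h).trans ?_
    change GrpFun n at f
    cases f
    · rfl
    · rfl
    · rfl
  map_rel' := fun {_} r _ => nomatch r

/-- the extension of a homomorphism to the ultrapower -/
noncomputable def ext {T : Type} [AddCommGroup T] (U : Filter ℕ) (h : T →+ T) :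
    U.Germ T →ₗ[U.Germ ℤ] U.Germ T where
  toFun := Germ.map h
  map_add' x y := by
    induction x using Germ.inductionOn with | _ x => ?_
    induction y using Germ.inductionOn with | _ y => ?_
    refine Germ.coe_eq.2 (Eventually.of_forall fun n => ?_)
    exact map_add h (x n) (y n)
  map_smul' a x := by
    induction x using Germ.inductionOn with | _ x => ?_
    induction a using Germ.inductionOn with | _ a => ?_
    refine Germ.coe_eq.2 (Eventually.of_forall fun n => ?_)
    exact map_zsmul h (a n) (x n)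

theorem ext_coe {T : Type} [AddCommGroup T] (U : Filter ℕ) (h : T →+ T) (x : ℕ → T) :
    ext U h (x : U.Germ T) = ((fun n => h (x n) : ℕ → T) : U.Germ T) := rfl

/-- the ultrapower has a twisted automorphism -/
theorem exists_twist_germ [Finite Γ] (htf : ∀ (m : ℤ) (x : T), m ≠ 0 → m • x = 0 → x = 0)
    (s t : T →+ T) (hs : ∀ x, s (s x) = (2 : ℤ) • x) (ht : ∀ x, t (t x) = -((3 : ℤ) • x))
    (hst : ∀ x, s (t x) = t (s x)) (τ : Γ → Γ)
    (hsγ : ∀ (γ : Γ) x, s (γ • x) = τ γ • s x) (htγ : ∀ (γ : Γ) x, t (γ • x) = τ γ • t x)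
    (hU : (U : Filter ℕ) ≤ atTop) :
    ∃ Φ : (U : Filter ℕ).Germ T ≃+ (U : Filter ℕ).Germ T,
      ∀ (γ : Γ) x, Φ (γ • x) = τ γ • Φ x := by
  obtain ⟨Y, a, b, N, h1, h2⟩ := exists_numbers U hU
  refine exists_twist (R := (U : Filter ℕ).Germ T) (A := (U : Filter ℕ).Germ ℤ) (Γ := Γ)
    ?_ (ext U s) (ext U t) ?_ ?_ ?_ τ ?_ ?_ ?_ Y a b N h1 h2
  · intro m x hm h
    induction x using Germ.inductionOn with | _ x => ?_
    have h3 : ∀ᶠ n in (U : Filter ℕ), m • x n = 0 := Germ.coe_eq.1 h
    exact Germ.coe_eq.2 (h3.mono fun n hn => htf m _ hm hn)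
  · intro x
    induction x using Germ.inductionOn with | _ x => ?_
    exact Germ.coe_eq.2 (Eventually.of_forall fun n => hs (x n))
  · intro x
    induction x using Germ.inductionOn with | _ x => ?_
    exact Germ.coe_eq.2 (Eventually.of_forall fun n => ht (x n))
  · intro x
    induction x using Germ.inductionOn with | _ x => ?_
    exact Germ.coe_eq.2 (Eventually.of_forall fun n => hst (x n))
  · intro γ x
    induction x using Germ.inductionOn with | _ x => ?_
    exact Germ.coe_eq.2 (Eventually.of_forall fun n => hsγ γ (x n))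
  · intro γ x
    induction x using Germ.inductionOn with | _ x => ?_
    exact Germ.coe_eq.2 (Eventually.of_forall fun n => htγ γ (x n))
  · intro γ a x
    induction x using Germ.inductionOn with | _ x => ?_
    induction a using Germ.inductionOn with | _ a => ?_
    exact Germ.coe_eq.2 (Eventually.of_forall fun n =>
      map_zsmul (DistribSMul.toAddMonoidHom T γ) (a n) (x n))

/-- an element of the ultrapower of a finite set is standard -/
theorem exists_const {Γ : Type} [Finite Γ] (γ : (U : Filter ℕ).Germ Γ) :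
    ∃ δ : Γ, γ = ((fun _ => δ : ℕ → Γ) : (U : Filter ℕ).Germ Γ) := by
  induction γ using Germ.inductionOn with | _ γ => ?_
  have h : ∀ᶠ n in (U : Filter ℕ), ∃ δ ∈ (Set.univ : Set Γ), γ n = δ :=
    Eventually.of_forall fun n => ⟨γ n, trivial, rfl⟩
  obtain ⟨δ, -, hδ⟩ := (Ultrafilter.eventually_exists_mem_iff Set.finite_univ).1 h
  exact ⟨δ, Germ.coe_eq.2 hδ⟩

/-- **tuples of the semidirect product that correspond under the twist have the same type** -/
theorem same_type [Finite Γ] (htf : ∀ (m : ℤ) (x : T), m ≠ 0 → m • x = 0 → x = 0)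
    (s t : T →+ T) (hs : ∀ x, s (s x) = (2 : ℤ) • x) (ht : ∀ x, t (t x) = -((3 : ℤ) • x))
    (hst : ∀ x, s (t x) = t (s x)) (τ : Γ ≃* Γ)
    (hsγ : ∀ (γ : Γ) x, s (γ • x) = τ γ • s x) (htγ : ∀ (γ : Γ) x, t (γ • x) = τ γ • t x)
    {k : ℕ} (u v : Fin k → Aff T Γ)
    (huv : ∀ i, (u i).t = 0 ∧ (v i).t = 0 ∧ (v i).g = τ (u i).g) (φ : Lgrp.Formula (Fin k)) :
    φ.Realize u ↔ φ.Realize v := by
  obtain ⟨Φ, hΦ⟩ := exists_twist_germ (hyperfilter ℕ) htf s t hs ht hst τ hsγ htγ
    (by rw [← Nat.cofinite_eq_atTop]; exact hyperfilter_le_cofinite)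
  let U : Ultrafilter ℕ := hyperfilter ℕ
  let τ' : (U : Filter ℕ).Germ Γ ≃* (U : Filter ℕ).Germ Γ :=
    { toFun := Germ.map τ
      invFun := Germ.map τ.symm
      left_inv := fun x => by
        induction x using Germ.inductionOn with | _ x => ?_
        exact Germ.coe_eq.2 (Eventually.of_forall fun n => τ.symm_apply_apply (x n))
      right_inv := fun x => by
        induction x using Germ.inductionOn with | _ x => ?_
        exact Germ.coe_eq.2 (Eventually.of_forall fun n => τ.apply_symm_apply (x n))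
      map_mul' := fun x y => by
        induction x using Germ.inductionOn with | _ x => ?_
        induction y using Germ.inductionOn with | _ y => ?_
        exact Germ.coe_eq.2 (Eventually.of_forall fun n => τ.map_mul (x n) (y n)) }
  let α : Aff ((U : Filter ℕ).Germ T) ((U : Filter ℕ).Germ Γ) ≃*
      Aff ((U : Filter ℕ).Germ T) ((U : Filter ℕ).Germ Γ) := affEquiv Φ τ' (by
    intro γ x
    obtain ⟨δ, rfl⟩ := exists_const U γ
    exact hΦ δ x)
  let β : UP T Γ U ≃[Lgrp] UP T Γ U :=
    (compsEquiv U).symm.comp ((grpEquiv α).comp (compsEquiv U))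
  have key : ∀ w : Fin k → Aff T Γ, φ.Realize w ↔
      φ.Realize (fun i => ((fun _ => w i : ℕ → Aff T Γ) : UP T Γ U)) := by
    intro w
    have := Ultraproduct.realize_formula_cast (L := Lgrp) (u := U) φ
      (fun i => (fun _ => w i : ℕ → Aff T Γ))
    rw [this]
    simp only [eventually_const]
  rw [key u, key v]
  have h1 : (fun i => ((fun _ => v i : ℕ → Aff T Γ) : UP T Γ U)) =
      β ∘ (fun i => ((fun _ => u i : ℕ → Aff T Γ) : UP T Γ U)) := by
    funext i
    obtain ⟨h1, h2, h3⟩ := huv i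
    have h4 : (compsEquiv U) ((fun _ => v i : ℕ → Aff T Γ) : UP T Γ U) =
        α ((compsEquiv U) ((fun _ => u i : ℕ → Aff T Γ) : UP T Γ U)) := by
      ext
      · change ((fun _ => (v i).t : ℕ → T) : (U : Filter ℕ).Germ T) =
          Φ ((fun _ => (u i).t : ℕ → T) : (U : Filter ℕ).Germ T)
        rw [h1, h2]
        exact (map_zero Φ).symm
      · change ((fun _ => (v i).g : ℕ → Γ) : (U : Filter ℕ).Germ Γ) =
          ((fun _ => τ (u i).g : ℕ → Γ) : (U : Filter ℕ).Germ Γ)
        rw [h3]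
    change _ = (compsEquiv U).symm (α ((compsEquiv U) _))
    rw [← h4]
    exact ((compsEquiv U).toEquiv.symm_apply_apply _).symm
  rw [h1]
  exact (StrongHomClass.realize_formula β φ).symm

end ultra

end Pool.Agent.X225.Cr
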