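import Pool.Agent.X225.Cr.Germ

/-!
# The lattice and its isometries
-/

namespace Pool.Agent.X225.Cr

open Filter ComplexConjugate

/-- the space -/
abbrev V : Type := EuclideanSpace ℂ (Fin 4)

/-- `√-3` -/
noncomputable def th : ℂ := ⟨0, √3⟩

/-- the cube root of unity -/
noncomputable def om : ℂ := ⟨-1 / 2, √3 / 2⟩

theorem th_eq : th = 1 + 2 * om := by
  apply Complex.ext
  · simp [th, om]
    norm_num
  · simp [th, om]
    ring

theorem sqrt3_sq : √3 * √3 = 3 := Real.mul_self_sqrt (by norm_num)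

theorem th_mul : th * th = -3 := by
  apply Complex.ext <;> simp [th]

theorem om_mul : om * om = -1 - om := by
  have h := sqrt3_sq
  apply Complex.ext <;> simp [om] <;> nlinarith

theorem conj_om : conj om = -1 - om := by
  apply Complex.ext <;> simp [om]
  · norm_num

theorem conj_th : conj th = -th := by
  apply Complex.ext <;> simp [th]

theorem normSq_om : Complex.normSq om = 1 := by
  have h := sqrt3_sq
  rw [Complex.normSq_apply]
  simp only [om]
  nlinarith

theorem norm_om : ‖om‖ = 1 := by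
  have h := Complex.normSq_eq_norm_sq om
  rw [normSq_om] at h
  have h2 := norm_nonneg om
  nlinarith

/-- the real linear map with given coordinates -/
noncomputable def vec (a b c d : ℂ) : V := WithLp.toLp 2 ![a, b, c, d]

@[simp] theorem vec_0 (a b c d : ℂ) : vec a b c d 0 = a := rfl
@[simp] theorem vec_1 (a b c d : ℂ) : vec a b c d 1 = b := rfl
@[simp] theorem vec_2 (a b c d : ℂ) : vec a b c d 2 = c := rfl
@[simp] theorem vec_3 (a b c d : ℂ) : vec a b c d 3 = d := rfl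

theorem V_ext {f g : V} (h0 : f 0 = g 0) (h1 : f 1 = g 1) (h2 : f 2 = g 2) (h3 : f 3 = g 3) :
    f = g := by
  ext i
  fin_cases i
  · exact h0
  · exact h1
  · exact h2
  · exact h3

theorem normSq_V (f : V) : ‖f‖ ^ 2 = ‖f 0‖ ^ 2 + ‖f 1‖ ^ 2 + ‖f 2‖ ^ 2 + ‖f 3‖ ^ 2 := by
  rw [EuclideanSpace.norm_sq_eq, Fin.sum_univ_four]

theorem norm_eq_of_sq {f g : V} (h : ‖f‖ ^ 2 = ‖g‖ ^ 2) : ‖f‖ = ‖g‖ := by
  have h1 := norm_nonneg f
  have h2 := norm_nonneg g
  nlinarith

/-- a real linear isometry from its formula -/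
noncomputable def mkIso (F G : V → V) (hadd : ∀ x y, F (x + y) = F x + F y)
    (hsmul : ∀ (c : ℝ) x, F (c • x) = c • F x) (hGF : ∀ x, G (F x) = x) (hFG : ∀ x, F (G x) = x)
    (hn : ∀ x, ‖F x‖ ^ 2 = ‖x‖ ^ 2) : V ≃ₗᵢ[ℝ] V where
  toFun := F
  map_add' := hadd
  map_smul' := hsmul
  invFun := G
  left_inv := hGF
  right_inv := hFG
  norm_map' x := norm_eq_of_sq (hn x)

/-- multiplication by `ω` -/
noncomputable def opW : V ≃ₗᵢ[ℝ] V :=
  mkIso (fun f => vec (om * f 0) (om * f 1) (om * f 2) (om * f 3))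
    (fun f => vec (conj om * f 0) (conj om * f 1) (conj om * f 2) (conj om * f 3))
    (by intro x y; apply V_ext <;> simp [mul_add])
    (by intro c x; apply V_ext <;> simp <;> ring)
    (by
      intro x
      have h : conj om * om = 1 := by
        rw [← Complex.normSq_eq_conj_mul_self, normSq_om, Complex.ofReal_one]
      apply V_ext <;> simp only [vec_0, vec_1, vec_2, vec_3, ← mul_assoc, h, one_mul])
    (by
      intro x
      have h : om * conj om = 1 := by
        rw [Complex.mul_conj, normSq_om, Complex.ofReal_one]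
      apply V_ext <;> simp only [vec_0, vec_1, vec_2, vec_3, ← mul_assoc, h, one_mul])
    (by intro x; rw [normSq_V, normSq_V]; simp [norm_om])

/-- multiplication by `ζ` -/
noncomputable def opZ : V ≃ₗᵢ[ℝ] V :=
  mkIso (fun f => vec (-f 3) (f 0) (f 1) (f 2)) (fun f => vec (f 1) (f 2) (f 3) (-f 0))
    (by intro x y; apply V_ext <;> simp [add_comm])
    (by intro c x; apply V_ext <;> simp)
    (by intro x; apply V_ext <;> simp) (by intro x; apply V_ext <;> simp)
    (by intro x; rw [normSq_V, normSq_V]; simp; ring)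

/-- the conjugation of the second factor -/
noncomputable def opC : V ≃ₗᵢ[ℝ] V :=
  mkIso (fun f => vec (f 0) (-f 3) (-f 2) (-f 1)) (fun f => vec (f 0) (-f 3) (-f 2) (-f 1))
    (by intro x y; apply V_ext <;> simp [add_comm])
    (by intro c x; apply V_ext <;> simp)
    (by intro x; apply V_ext <;> simp) (by intro x; apply V_ext <;> simp)
    (by intro x; rw [normSq_V, normSq_V]; simp; ring)

/-- the Galois automorphism -/
noncomputable def opS : V ≃ₗᵢ[ℝ] V :=
  mkIso (fun f => vec (conj (f 0)) (conj (f 3)) (-conj (f 2)) (conj (f 1)))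
    (fun f => vec (conj (f 0)) (conj (f 3)) (-conj (f 2)) (conj (f 1)))
    (by intro x y; apply V_ext <;> simp [add_comm])
    (by intro c x; apply V_ext <;> simp)
    (by intro x; apply V_ext <;> simp) (by intro x; apply V_ext <;> simp)
    (by intro x; rw [normSq_V, normSq_V]; simp; ring)

/-- multiplication by `√2` -/
noncomputable def sV : V →+ V where
  toFun f := vec (f 1 - f 3) (f 0 + f 2) (f 1 + f 3) (f 2 - f 0)
  map_zero' := by apply V_ext <;> simp
  map_add' x y := by apply V_ext <;> simp <;> ring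

/-- multiplication by `√-3` -/
noncomputable def tV : V →+ V where
  toFun f := vec (th * f 0) (th * f 1) (th * f 2) (th * f 3)
  map_zero' := by apply V_ext <;> simp
  map_add' x y := by apply V_ext <;> simp <;> ring

theorem opW_apply (f : V) : opW f = vec (om * f 0) (om * f 1) (om * f 2) (om * f 3) := rfl
theorem opZ_apply (f : V) : opZ f = vec (-f 3) (f 0) (f 1) (f 2) := rfl
theorem opC_apply (f : V) : opC f = vec (f 0) (-f 3) (-f 2) (-f 1) := rfl
theorem opS_apply (f : V) : opS f =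
  vec (conj (f 0)) (conj (f 3)) (-conj (f 2)) (conj (f 1)) := rfl
theorem sV_apply (f : V) : sV f = vec (f 1 - f 3) (f 0 + f 2) (f 1 + f 3) (f 2 - f 0) := rfl
theorem tV_apply (f : V) : tV f = vec (th * f 0) (th * f 1) (th * f 2) (th * f 3) := rfl

theorem ss (x : V) : sV (sV x) = (2 : ℤ) • x := by
  apply V_ext <;> simp [sV_apply] <;> ring

theorem tt (x : V) : tV (tV x) = -((3 : ℤ) • x) := by
  apply V_ext <;> simp [tV_apply, ← mul_assoc, th_mul]

theorem st (x : V) : sV (tV x) = tV (sV x) := by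
  apply V_ext <;> simp [sV_apply, tV_apply] <;> ring

theorem sV_opW (x : V) : sV (opW x) = opW (sV x) := by
  apply V_ext <;> simp [sV_apply, opW_apply] <;> ring

theorem sV_opZ (x : V) : sV (opZ x) = opZ (sV x) := by
  apply V_ext <;> simp [sV_apply, opZ_apply] <;> ring

theorem sV_opC (x : V) : sV (opC x) = opC (sV x) := by
  apply V_ext <;> simp [sV_apply, opC_apply] <;> ring

theorem sV_opS (x : V) : sV (opS x) = -opS (sV x) := by
  apply V_ext <;> simp [sV_apply, opS_apply] <;> ring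

theorem tV_opW (x : V) : tV (opW x) = opW (tV x) := by
  apply V_ext <;> simp [tV_apply, opW_apply] <;> ring

theorem tV_opZ (x : V) : tV (opZ x) = opZ (tV x) := by
  apply V_ext <;> simp [tV_apply, opZ_apply]

theorem tV_opC (x : V) : tV (opC x) = opC (tV x) := by
  apply V_ext <;> simp [tV_apply, opC_apply]

theorem tV_opS (x : V) : tV (opS x) = -opS (tV x) := by
  apply V_ext <;> simp [tV_apply, opS_apply, conj_th]

/-! ### The lattice -/

/-- the Eisenstein integers -/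
def IsEis (z : ℂ) : Prop := ∃ a b : ℤ, z = a + b * om

theorem IsEis.add {z w : ℂ} (hz : IsEis z) (hw : IsEis w) : IsEis (z + w) := by
  obtain ⟨a, b, rfl⟩ := hz
  obtain ⟨c, d, rfl⟩ := hw
  exact ⟨a + c, b + d, by push_cast; ring⟩

theorem IsEis.neg {z : ℂ} (hz : IsEis z) : IsEis (-z) := by
  obtain ⟨a, b, rfl⟩ := hz
  exact ⟨-a, -b, by push_cast; ring⟩

theorem IsEis.sub {z w : ℂ} (hz : IsEis z) (hw : IsEis w) : IsEis (z - w) := by
  rw [sub_eq_add_neg]
  exact hz.add hw.neg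

theorem IsEis.mul {z w : ℂ} (hz : IsEis z) (hw : IsEis w) : IsEis (z * w) := by
  obtain ⟨a, b, rfl⟩ := hz
  obtain ⟨c, d, rfl⟩ := hw
  refine ⟨a * c - b * d, a * d + b * c - b * d, ?_⟩
  have : (a + b * om) * (c + d * om) = a * c + (a * d + b * c) * om + b * d * (om * om) := by ring
  rw [this, om_mul]
  push_cast
  ring

theorem isEis_zero : IsEis 0 := ⟨0, 0, by simp⟩
theorem isEis_one : IsEis 1 := ⟨1, 0, by simp⟩
theorem isEis_om : IsEis om := ⟨0, 1, by simp⟩
theorem isEis_th : IsEis th := ⟨1, 2, by rw [th_eq]; push_cast; ring⟩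

theorem IsEis.conj {z : ℂ} (hz : IsEis z) : IsEis (conj z) := by
  obtain ⟨a, b, rfl⟩ := hz
  refine ⟨a - b, -b, ?_⟩
  rw [map_add, map_mul, conj_om]
  simp
  ring

/-- the lattice -/
def lat : AddSubgroup V where
  carrier := {f | ∀ i, IsEis (f i)}
  zero_mem' i := isEis_zero
  add_mem' hf hg i := (hf i).add (hg i)
  neg_mem' hf i := (hf i).neg

theorem mem_lat_iff {f : V} : f ∈ lat ↔ IsEis (f 0) ∧ IsEis (f 1) ∧ IsEis (f 2) ∧ IsEis (f 3) := by
  constructor
  · intro h
    exact ⟨h 0, h 1, h 2, h 3⟩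
  · rintro ⟨h0, h1, h2, h3⟩ i
    fin_cases i
    · exact h0
    · exact h1
    · exact h2
    · exact h3

theorem sV_mem {f : V} (hf : f ∈ lat) : sV f ∈ lat := by
  obtain ⟨h0, h1, h2, h3⟩ := mem_lat_iff.1 hf
  exact mem_lat_iff.2 ⟨h1.sub h3, h0.add h2, h1.add h3, h2.sub h0⟩

theorem tV_mem {f : V} (hf : f ∈ lat) : tV f ∈ lat := by
  obtain ⟨h0, h1, h2, h3⟩ := mem_lat_iff.1 hf
  exact mem_lat_iff.2 ⟨isEis_th.mul h0, isEis_th.mul h1, isEis_th.mul h2, isEis_th.mul h3⟩

theorem opW_mem {f : V} : opW f ∈ lat ↔ f ∈ lat := by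
  constructor
  · intro hf
    have h : opW (opW (opW f)) = f := by
      have h3 : om * (om * om) = 1 := by
        rw [om_mul, mul_sub, om_mul]
        ring
      apply V_ext <;> simp only [opW_apply, vec_0, vec_1, vec_2, vec_3, ← mul_assoc] <;>
        rw [mul_assoc om om om, h3, one_mul]
    have h2 : ∀ g : V, g ∈ lat → opW g ∈ lat := by
      intro g hg
      obtain ⟨h0, h1, h2, h3⟩ := mem_lat_iff.1 hg
      exact mem_lat_iff.2 ⟨isEis_om.mul h0, isEis_om.mul h1, isEis_om.mul h2, isEis_om.mul h3⟩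
    rw [← h]
    exact h2 _ (h2 _ hf)
  · intro hg
    obtain ⟨h0, h1, h2, h3⟩ := mem_lat_iff.1 hg
    exact mem_lat_iff.2 ⟨isEis_om.mul h0, isEis_om.mul h1, isEis_om.mul h2, isEis_om.mul h3⟩

theorem isEis_neg_iff {z : ℂ} : IsEis (-z) ↔ IsEis z :=
  ⟨fun h => by simpa using h.neg, IsEis.neg⟩

theorem isEis_conj_iff {z : ℂ} : IsEis (conj z) ↔ IsEis z :=
  ⟨fun h => by simpa using h.conj, IsEis.conj⟩

theorem opZ_mem {f : V} : opZ f ∈ lat ↔ f ∈ lat := by
  rw [mem_lat_iff, mem_lat_iff, opZ_apply]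
  simp only [vec_0, vec_1, vec_2, vec_3, isEis_neg_iff]
  tauto

theorem opC_mem {f : V} : opC f ∈ lat ↔ f ∈ lat := by
  rw [mem_lat_iff, mem_lat_iff, opC_apply]
  simp only [vec_0, vec_1, vec_2, vec_3, isEis_neg_iff]
  tauto

theorem opS_mem {f : V} : opS f ∈ lat ↔ f ∈ lat := by
  rw [mem_lat_iff, mem_lat_iff, opS_apply]
  simp only [vec_0, vec_1, vec_2, vec_3, isEis_neg_iff, isEis_conj_iff]
  tauto

/-! ### Finiteness -/

theorem re_eis (a b : ℤ) : ((a : ℂ) + b * om).re = a - b / 2 := by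
  simp [om]
  ring

theorem im_eis (a b : ℤ) : ((a : ℂ) + b * om).im = b * (√3 / 2) := by
  simp [om]

theorem sqrt3_gt : (1 : ℝ) < √3 := by
  rw [Real.lt_sqrt (by norm_num)]
  norm_num

theorem finite_eis (r : ℝ) : {z : ℂ | IsEis z ∧ ‖z‖ ≤ r}.Finite := by
  refine Set.Finite.subset (((Set.finite_Icc (-⌈2 * r⌉) ⌈2 * r⌉).prod
    (Set.finite_Icc (-⌈2 * r⌉) ⌈2 * r⌉)).image fun p : ℤ × ℤ => ((p.1 : ℂ) + p.2 * om)) ?_
  rintro z ⟨⟨a, b, rfl⟩, hz⟩
  refine ⟨(a, b), ?_, rfl⟩
  have h1 := (Complex.abs_re_le_norm _).trans hz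
  have h2 := (Complex.abs_im_le_norm _).trans hz
  rw [re_eis] at h1
  rw [im_eis, abs_mul, abs_of_pos (by have := sqrt3_gt; positivity : (0 : ℝ) < √3 / 2)] at h2
  have h3 := sqrt3_gt
  have hb : |(b : ℝ)| ≤ 2 * r := by
    have h4 := abs_nonneg (b : ℝ)
    nlinarith
  have ha : |(a : ℝ)| ≤ 2 * r := by
    have h5 : |(a : ℝ)| ≤ |(a : ℝ) - b / 2| + |(b : ℝ) / 2| := by
      have := abs_add_le ((a : ℝ) - b / 2) (b / 2)
      rwa [sub_add_cancel] at this
    rw [abs_div, abs_of_pos (by norm_num : (0 : ℝ) < 2)] at h5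
    linarith
  have hc : ∀ c : ℤ, |(c : ℝ)| ≤ 2 * r → -⌈2 * r⌉ ≤ c ∧ c ≤ ⌈2 * r⌉ := by
    intro c hc
    rw [abs_le] at hc
    have h6 := Int.le_ceil (2 * r)
    constructor
    · have : (-⌈2 * r⌉ : ℝ) ≤ c := by linarith
      exact_mod_cast this
    · have : (c : ℝ) ≤ ⌈2 * r⌉ := by linarith
      exact_mod_cast this
  exact ⟨hc a ha, hc b hb⟩

theorem coord_le (f : V) (i : Fin 4) : ‖f i‖ ≤ ‖f‖ := by
  have h := PiLp.norm_apply_le f i
  exact h

theorem finite_lat (r : ℝ) : {f : V | f ∈ lat ∧ ‖f‖ ≤ r}.Finite := by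
  have h := Set.Finite.pi' (fun _ : Fin 4 => finite_eis r)
  refine Set.Finite.of_finite_image (f := fun f : V => (fun i => f i)) (h.subset ?_) ?_
  · rintro _ ⟨f, ⟨hf, hr⟩, rfl⟩ i
    exact ⟨hf i, (coord_le f i).trans hr⟩
  · intro f _ g _ hfg
    ext i
    exact congrFun hfg i

/-- rounding -/
theorem exists_near_eis (z : ℂ) : ∃ w, IsEis w ∧ ‖z - w‖ ≤ 2 := by
  let b : ℤ := round (z.im / (√3 / 2))
  let a : ℤ := round (z.re + b / 2)
  refine ⟨a + b * om, ⟨a, b, rfl⟩, ?_⟩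
  have h3 := sqrt3_gt
  have hb := abs_sub_round (z.im / (√3 / 2))
  have ha := abs_sub_round (z.re + b / 2)
  have h1 : |(z - (a + b * om)).re| ≤ 1 / 2 := by
    rw [Complex.sub_re, re_eis]
    have : z.re - (a - b / 2) = z.re + b / 2 - a := by ring
    rw [this]
    exact ha
  have h4 : √3 ≤ 2 := by
    rw [Real.sqrt_le_left (by norm_num)]
    norm_num
  have h2 : |(z - (a + b * om)).im| ≤ 1 := by
    rw [Complex.sub_im, im_eis]
    have : z.im - b * (√3 / 2) = (z.im / (√3 / 2) - b) * (√3 / 2) := by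
      field_simp
    rw [this, abs_mul, abs_of_pos (by positivity : (0 : ℝ) < √3 / 2)]
    have h5 := abs_nonneg (z.im / (√3 / 2) - b)
    have h6 : |z.im / (√3 / 2) - b| ≤ 1 / 2 := hb
    nlinarith
  refine (Complex.norm_le_abs_re_add_abs_im _).trans ?_
  linarith

theorem exists_near_lat (x : V) : ∃ f ∈ lat, ‖x - f‖ ≤ 4 := by
  choose w hw hw' using fun i => exists_near_eis (x i)
  refine ⟨WithLp.toLp 2 w, fun i => hw i, ?_⟩
  have h : ‖x - WithLp.toLp 2 w‖ ^ 2 ≤ 4 ^ 2 := by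
    rw [normSq_V]
    have h1 : ∀ i, ‖(x - WithLp.toLp 2 w : V) i‖ ^ 2 ≤ 2 ^ 2 := fun i =>
      pow_le_pow_left₀ (norm_nonneg _) (hw' i) 2
    have h0 := h1 0
    have h2 := h1 1
    have h3 := h1 2
    have h4 := h1 3
    linarith
  exact le_of_sq_le_sq h (by norm_num)

end Pool.Agent.X225.Cr
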