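import Mathlib

/-!
# A twisted automorphism of an ultrapower of a lattice

`T` is a torsion-free abelian group with an action of a finite group `Γ`, `τ` an endomorphism of `Γ`,
`s`, `t` commuting endomorphisms of `T` with `s² = 2`, `t² = -3` and `s γ = τ(γ) s`,
`t γ = τ(γ) t`.  Then the ultrapower `R` of `T` has an automorphism `Φ` with `Φ γ = τ(γ) Φ`.
-/

namespace Pool.Agent.X225.Cr

open Filter

variable {T : Type} [AddCommGroup T]

/-- the divisible part -/
def divPart (R : Type) [AddCommGroup R] : AddSubgroup R where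
  carrier := {x | ∀ m : ℤ, m ≠ 0 → ∃ y, x = m • y}
  zero_mem' m _ := ⟨0, by simp⟩
  add_mem' := by
    intro a b ha hb m hm
    obtain ⟨y, rfl⟩ := ha m hm
    obtain ⟨z, rfl⟩ := hb m hm
    exact ⟨y + z, by rw [smul_add]⟩
  neg_mem' := by
    intro a ha m hm
    obtain ⟨y, rfl⟩ := ha m hm
    exact ⟨-y, by rw [smul_neg]⟩

section general

variable {R : Type} [AddCommGroup R] (htf : ∀ (m : ℤ) (x : R), m ≠ 0 → m • x = 0 → x = 0)

include htf in
theorem smul_cancel {m : ℤ} (hm : m ≠ 0) {x y : R} (h : m • x = m • y) : x = y := by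
  rw [← sub_eq_zero]
  apply htf m _ hm
  rw [smul_sub, h, sub_self]

include htf in
theorem div_mem {x : R} (hx : x ∈ divPart R) {m : ℤ} (hm : m ≠ 0) :
    ∃ y ∈ divPart R, x = m • y := by
  obtain ⟨y, hy⟩ := hx m hm
  refine ⟨y, fun k hk => ?_, hy⟩
  obtain ⟨z, hz⟩ := hx (m * k) (mul_ne_zero hm hk)
  refine ⟨z, smul_cancel htf hm ?_⟩
  rw [← hy, hz, mul_smul]

theorem map_mem (f : R →+ R) {x : R} (hx : x ∈ divPart R) : f x ∈ divPart R := by
  intro m hm
  obtain ⟨y, rfl⟩ := hx m hm
  exact ⟨f y, by rw [map_zsmul]⟩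

include htf in
/-- an additive projection onto the divisible part -/
theorem exists_proj : ∃ π : R →+ R, (∀ x, π x ∈ divPart R) ∧ ∀ x ∈ divPart R, π x = x := by
  classical
  let _ : DivisibleBy (divPart R) ℤ :=
    { div := fun x m => if h : m = 0 then 0 else
        ⟨Classical.choose (div_mem htf x.2 h), (Classical.choose_spec (div_mem htf x.2 h)).1⟩
      div_zero := fun x => by simp
      div_cancel := fun {m} x hm => by
        rw [dif_neg hm]
        apply Subtype.ext
        exact (Classical.choose_spec (div_mem htf x.2 hm)).2.symm }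
  have hinj : Module.Injective ℤ (divPart R) := (Module.Baer.of_divisible _).injective
  obtain ⟨h, hh⟩ := hinj.out (divPart R).subtype.toIntLinearMap
    (Subtype.val_injective) (LinearMap.id)
  refine ⟨(divPart R).subtype.comp h.toAddMonoidHom, fun x => (h x).2, fun x hx => ?_⟩
  have := hh ⟨x, hx⟩
  exact congrArg Subtype.val this

variable {Γ : Type} [Group Γ] [Finite Γ] [DistribMulAction Γ R]

include htf in
/-- an equivariant additive projection onto the divisible part -/
theorem exists_equivariant_proj : ∃ e : R →+ R, (∀ x, e x ∈ divPart R) ∧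
    (∀ x ∈ divPart R, e x = x) ∧ ∀ (γ : Γ) x, e (γ • x) = γ • e x := by
  classical
  obtain ⟨π, hπ, hπ'⟩ := exists_proj htf
  have := Fintype.ofFinite Γ
  have hγ : ∀ (γ : Γ) (x : R), x ∈ divPart R → γ • x ∈ divPart R := fun γ x hx =>
    map_mem (DistribSMul.toAddMonoidHom R γ) hx
  let N : ℤ := Fintype.card Γ
  have hN : N ≠ 0 := by
    simp [N, Fintype.card_ne_zero]
  have hs : ∀ x, ∑ γ : Γ, γ⁻¹ • π (γ • x) ∈ divPart R := fun x =>
    AddSubgroup.sum_mem _ fun γ _ => hγ _ _ (hπ _)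
  choose e he1 he2 using fun x => div_mem htf (hs x) hN
  have huniq : ∀ x z, N • z = ∑ γ : Γ, γ⁻¹ • π (γ • x) → e x = z := fun x z hz =>
    smul_cancel htf hN (by rw [← he2, hz])
  refine ⟨⟨⟨e, huniq _ _ ?_⟩, fun x y => huniq _ _ ?_⟩, he1, fun x hx => huniq _ _ ?_,
    fun δ x => huniq _ _ ?_⟩
  · simp
  · rw [smul_add, ← he2, ← he2, ← Finset.sum_add_distrib]
    refine Finset.sum_congr rfl fun γ _ => ?_
    rw [smul_add, map_add, smul_add]
  · have : ∀ γ : Γ, γ⁻¹ • π (γ • x) = x := fun γ => by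
      rw [hπ' _ (hγ _ _ hx), inv_smul_smul]
    simp [this, N]
  · have h1 : N • (δ • e x) = δ • (N • e x) := by
      have := map_zsmul (DistribSMul.toAddMonoidHom R δ) N (e x)
      exact this.symm
    change N • (δ • e x) = _
    rw [h1, ← he2, Finset.smul_sum]
    refine Fintype.sum_equiv (Equiv.mulRight δ⁻¹) _ _ fun γ => ?_
    simp [smul_smul, mul_inv_rev]

include htf in
/-- the twisted automorphism -/
theorem exists_twist {A : Type} [CommRing A] [Module A R] (s t : R →ₗ[A] R)
    (hs : ∀ x, s (s x) = (2 : A) • x) (ht : ∀ x, t (t x) = -((3 : A) • x))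
    (hst : ∀ x, s (t x) = t (s x)) (τ : Γ → Γ)
    (hsγ : ∀ (γ : Γ) x, s (γ • x) = τ γ • s x) (htγ : ∀ (γ : Γ) x, t (γ • x) = τ γ • t x)
    (hγ : ∀ (γ : Γ) (a : A) (x : R), γ • (a • x) = a • (γ • x))
    (Y a b N : A) (hab : a * (2 + 3 * Y ^ 2) + b * N = 1)
    (hN : ∀ m : ℤ, m ≠ 0 → ∃ N' : A, N = m * N') :
    ∃ Φ : R ≃+ R, ∀ (γ : Γ) x, Φ (γ • x) = τ γ • Φ x := by
  obtain ⟨e, he1, he2, he3⟩ := exists_equivariant_proj htf (Γ := Γ)
  have hmem : ∀ (c : A) x, x ∈ divPart R → c • x ∈ divPart R := fun c x hx =>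
    map_mem (DistribSMul.toAddMonoidHom R c) hx
  have hNmem : ∀ x : R, N • x ∈ divPart R := by
    intro x m hm
    obtain ⟨N', rfl⟩ := hN m hm
    exact ⟨N' • x, by rw [mul_smul, Int.cast_smul_eq_zsmul]⟩
  have h2mem : ∀ x ∈ divPart R, ∃ y ∈ divPart R, s y = x := by
    intro x hx
    obtain ⟨y, hy, rfl⟩ := div_mem htf hx (m := 2) (by norm_num)
    refine ⟨s y, map_mem s.toAddMonoidHom hy, ?_⟩
    rw [hs]
    exact Int.cast_smul_eq_zsmul A 2 y ▸ by norm_num
  let D : R →ₗ[A] R := s + Y • t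
  let D' : R →ₗ[A] R := s - Y • t
  have hD : ∀ x, D x = s x + Y • t x := fun x => rfl
  have hD' : ∀ x, D' x = s x - Y • t x := fun x => rfl
  have hDD' : ∀ x, D (D' x) = (2 + 3 * Y ^ 2) • x := by
    intro x
    rw [hD, hD', map_sub, map_sub, map_smul, map_smul, hs, ht, hst]
    module
  have hD'D : ∀ x, D' (D x) = (2 + 3 * Y ^ 2) • x := by
    intro x
    rw [hD', hD, map_add, map_add, map_smul, map_smul, hs, ht, hst]
    module
  have hDmem : ∀ x ∈ divPart R, D x ∈ divPart R := fun x hx => map_mem D.toAddMonoidHom hx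
  have hDmem' : ∀ x, D x ∈ divPart R → x ∈ divPart R := by
    intro x hx
    have h1 : x = a • D' (D x) + b • (N • x) := by
      rw [hD'D, smul_smul, smul_smul, ← add_smul, hab, one_smul]
    rw [h1]
    exact add_mem (hmem _ _ (map_mem D'.toAddMonoidHom hx)) (hmem _ _ (hNmem _))
  let Φ : R →+ R := D.toAddMonoidHom.comp (AddMonoidHom.id R - e) + s.toAddMonoidHom.comp e
  have hΦ : ∀ x, Φ x = D (x - e x) + s (e x) := fun x => rfl
  have hee : ∀ x, e (x - e x) = 0 := fun x => by rw [map_sub, he2 _ (he1 x), sub_self]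
  refine ⟨AddEquiv.ofBijective Φ ⟨?_, ?_⟩, fun γ x => ?_⟩
  · rw [injective_iff_map_eq_zero]
    intro x hx
    rw [hΦ] at hx
    have h1 : D (x - e x) = - s (e x) := eq_neg_of_add_eq_zero_left hx
    have h2 : x - e x ∈ divPart R := by
      apply hDmem'
      rw [h1]
      exact neg_mem (map_mem s.toAddMonoidHom (he1 x))
    have h3 : x - e x = 0 := by
      rw [← he2 _ h2, hee]
    rw [h3, map_zero, zero_add] at hx
    have h4 : e x = 0 := by
      apply htf 2 _ (by norm_num)
      have := hs (e x)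
      rw [hx, map_zero] at this
      rw [this]
      exact (Int.cast_smul_eq_zsmul A 2 (e x)).symm.trans (by norm_num)
    rw [h4, sub_zero] at h3
    exact h3
  · intro x
    -- x = D (c) + (element of the divisible part)
    let y := D' (a • x)
    have h1 : x = D y + b • (N • x) := by
      change x = D (D' (a • x)) + _
      rw [hDD', smul_smul, smul_smul, ← add_smul, mul_comm _ a, hab, one_smul]
    have h2 : x = D (y - e y) + (D (e y) + b • (N • x)) := by
      rw [← add_assoc, ← map_add, sub_add_cancel]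
      exact h1
    obtain ⟨z, hz, hz'⟩ := h2mem _ (add_mem (hDmem _ (he1 y)) (hmem b _ (hNmem x)))
    refine ⟨(y - e y) + z, ?_⟩
    rw [hΦ]
    have h3 : e (y - e y + z) = z := by
      rw [map_add, hee, zero_add, he2 _ hz]
    rw [h3, add_sub_cancel_right, hz', ← h2]
  · change Φ (γ • x) = τ γ • Φ x
    rw [hΦ, hΦ, he3, ← smul_sub, hsγ, hD, hD, hsγ, htγ, smul_add, smul_add, hγ]

end general

end Pool.Agent.X225.Cr
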